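import Mathlib

/-!
# The Kuratowski topologization over the box metric is not Hausdorff

The space of closed sets of metric measure spaces (with the box metric), with the topologization of
the Kuratowski-Painlevé convergence, is neither Hausdorff nor metrizable: the empty set and the
set consisting of the one-point space cannot be separated.
-/

namespace Pool.Agent.Results.MP_3b4475_gt.NotHausdorff

open MeasureTheory Set Filter Topology
open scoped ENNReal NNReal

universe w

/-- An mm-space: a complete separable metric space with a Borel probability measure. -/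
structure MMSpace : Type 1 where
  carrier : Type
  [metric : MetricSpace carrier]
  [complete : CompleteSpace carrier]
  [separable : TopologicalSpace.SeparableSpace carrier]
  [meas : MeasurableSpace carrier]
  [borel : BorelSpace carrier]
  μ : Measure carrier
  [prob : IsProbabilityMeasure μ]

attribute [instance] MMSpace.metric MMSpace.complete MMSpace.separable MMSpace.meas MMSpace.borel
  MMSpace.prob

/-- Two mm-spaces are identified when some isometry `f` of the supports of the measures maps the
one measure to the other one. -/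
def Isom (X Y : MMSpace) : Prop :=
  ∃ f : X.μ.support ≃ᵢ Y.μ.support,
    Measure.map (fun x => (f x : Y.carrier)) (X.μ.comap (Subtype.val : X.μ.support → X.carrier)) = Y.μ

/-- The set of the classes of mm-spaces. -/
def MMClass : Type 1 := Quot Isom

/-- The class of an mm-space. -/
def mk (X : MMSpace) : MMClass := Quot.mk Isom X

/-- The interval `[0, 1)`. -/
abbrev I : Type := Ico (0 : ℝ) 1

/-- The Lebesgue measure on `[0, 1)`. -/
noncomputable def leb : Measure I := Measure.comap (Subtype.val : I → ℝ) volume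

/-- Parameters of mm-spaces. -/
def IsParameter (X : MMSpace) (φ : I → X.carrier) : Prop :=
  Measurable φ ∧ Measure.map φ leb = X.μ

/-- The condition on `ε` in the definition of the box distance of `X` and `Y`. -/
def BoxLe (X Y : MMSpace) (ε : ℝ≥0) : Prop :=
  ∃ (φ : I → X.carrier) (ψ : I → Y.carrier) (I₀ : Set I), IsParameter X φ ∧ IsParameter Y ψ ∧
    MeasurableSet I₀ ∧ 1 - (ε : ℝ≥0∞) ≤ leb I₀ ∧
    ∀ s ∈ I₀, ∀ t ∈ I₀, |dist (φ s) (φ t) - dist (ψ s) (ψ t)| ≤ ε

/-- The box distance of two classes (it does not depend on the mm-spaces representing them). -/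
noncomputable def box (x y : MMClass) : ℝ≥0∞ :=
  ⨅ (ε : ℝ≥0) (_ : ∃ X Y : MMSpace, mk X = x ∧ mk Y = y ∧ BoxLe X Y ε), (ε : ℝ≥0∞)

/-- The topology defined by the box distance. -/
instance : TopologicalSpace MMClass where
  IsOpen U := ∀ x ∈ U, ∃ ε : ℝ≥0∞, 0 < ε ∧ ∀ y, box x y < ε → y ∈ U
  isOpen_univ := fun _ _ => ⟨1, one_pos, fun _ _ => mem_univ _⟩
  isOpen_inter := by
    rintro U V hU hV x ⟨hx, hx'⟩
    obtain ⟨ε, hε, h⟩ := hU x hx
    obtain ⟨ε', hε', h'⟩ := hV x hx'
    exact ⟨min ε ε', lt_min hε hε', fun y hy =>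
      ⟨h y (hy.trans_le (min_le_left _ _)), h' y (hy.trans_le (min_le_right _ _))⟩⟩
  isOpen_sUnion := by
    rintro S hS x ⟨U, hU, hx⟩
    obtain ⟨ε, hε, h⟩ := hS U hU x hx
    exact ⟨ε, hε, fun y hy => ⟨U, hU, h y hy⟩⟩

/-- The points each neighbourhood of which meets `A i` for all sufficiently large `i`. -/
def Li {ι : Type w} [Preorder ι] (A : ι → Set MMClass) : Set MMClass :=
  {x | ∀ U ∈ 𝓝 x, ∃ i, ∀ j, i ≤ j → (A j ∩ U).Nonempty}

/-- The points each neighbourhood of which meets `A i` for cofinally many `i`. -/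
def Ls {ι : Type w} [Preorder ι] (A : ι → Set MMClass) : Set MMClass :=
  {x | ∀ U ∈ 𝓝 x, ∀ i, ∃ j, i ≤ j ∧ (A j ∩ U).Nonempty}

/-- The closed sets of classes of mm-spaces. -/
abbrev Hyper : Type 1 := TopologicalSpace.Closeds MMClass

/-- All nets (with index sets in a given universe) converging in the sense of
Kuratowski-Painlevé converge in the topology `t`. -/
def AllConverge (t : TopologicalSpace Hyper) : Prop :=
  ∀ (ι : Type w) [Preorder ι] [IsDirectedOrder ι] [Nonempty ι] (A : ι → Hyper) (B : Hyper),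
    Ls (fun i => (A i : Set MMClass)) ⊆ B → (B : Set MMClass) ⊆ Li (fun i => (A i : Set MMClass)) →
      Tendsto A atTop (@nhds Hyper t B)

/-- The topologization of the Kuratowski-Painlevé convergence: the finest topology for which all
nets converging in the sense of Kuratowski-Painlevé converge. -/
@[instance_reducible]
def tauK : TopologicalSpace Hyper := sInf {t | AllConverge.{w} t}

lemma allConverge_tauK : AllConverge.{w} tauK.{w} := by
  intro ι _ _ _ A B h1 h2
  unfold tauK
  rw [nhds_sInf]
  exact tendsto_iInf.2 fun t => tendsto_iInf.2 fun ht => ht ι A B h1 h2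

/-- all open sets of a topology for which these nets converge are open for `tauK` -/
lemma tauK_finest (t : TopologicalSpace Hyper) (ht : AllConverge.{w} t) : tauK.{w} ≤ t :=
  sInf_le ht

/-! ### Functionals -/

lemma vol_I : leb univ = 1 := by
  unfold leb
  rw [comap_subtype_coe_apply measurableSet_Ico volume univ, image_univ, Subtype.range_coe]
  simp

instance : IsProbabilityMeasure leb := ⟨vol_I⟩

/-- a functional: the integral of a function of the distance of two random points -/
noncomputable def Phi (k : ℝ → ℝ) (X : MMSpace) : ℝ :=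
  ∫ p : X.carrier × X.carrier, k (dist p.1 p.2) ∂(X.μ.prod X.μ)

/-- the kernels -/
structure Ker (k : ℝ → ℝ) (L : ℝ≥0) : Prop where
  lip : LipschitzWith L k
  nonneg : ∀ d, 0 ≤ k d
  le_one : ∀ d, k d ≤ 1

variable {k : ℝ → ℝ} {L : ℝ≥0}

lemma Ker.cont (hk : Ker k L) : Continuous k := hk.lip.continuous

lemma Ker.meas (hk : Ker k L) (X : MMSpace) :
    Measurable (fun p : X.carrier × X.carrier => k (dist p.1 p.2)) :=
  (hk.cont.comp continuous_dist).measurable

/-- the functional by means of a map from another probability space -/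
lemma Phi_eq (hk : Ker k L) (X : MMSpace) {Ω : Type} [MeasurableSpace Ω] (P : Measure Ω) [SFinite P]
    (φ : Ω → X.carrier) (hφ : Measurable φ) (h : Measure.map φ P = X.μ) :
    Phi k X = ∫ p : Ω × Ω, k (dist (φ p.1) (φ p.2)) ∂(P.prod P) := by
  have e : X.μ.prod X.μ = Measure.map (Prod.map φ φ) (P.prod P) := by
    rw [← h, Measure.map_prod_map _ _ hφ hφ]
  unfold Phi
  rw [e, integral_map (hφ.prodMap hφ).aemeasurable (hk.meas X).aestronglyMeasurable]
  rfl

lemma integrable_of (hk : Ker k L) {Ω : Type} [MeasurableSpace Ω] (P : Measure Ω) [IsFiniteMeasure P]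
    {X : MMSpace} {φ : Ω → X.carrier} (hφ : Measurable φ) :
    Integrable (fun p : Ω × Ω => k (dist (φ p.1) (φ p.2))) (P.prod P) := by
  refine Integrable.of_bound (C := 1) ?_ (Eventually.of_forall fun p => ?_)
  · exact ((hk.meas X).comp (hφ.prodMap hφ)).aestronglyMeasurable
  · rw [Real.norm_eq_abs, abs_of_nonneg (hk.nonneg _)]; exact hk.le_one _

lemma map_val_comap (X : MMSpace) :
    Measure.map (Subtype.val : X.μ.support → X.carrier) (X.μ.comap Subtype.val) = X.μ := by
  rw [map_comap_subtype_coe (Measure.isClosed_support).measurableSet]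
  exact Measure.restrict_eq_self_of_ae_mem Measure.support_mem_ae

instance (X : MMSpace) : IsFiniteMeasure
    (X.μ.comap (Subtype.val : X.μ.support → X.carrier)) where
  measure_univ_lt_top := by
    have h := congrArg (fun m => m univ) (map_val_comap X)
    simp only [Measure.map_apply measurable_subtype_coe MeasurableSet.univ, preimage_univ,
      measure_univ] at h
    rw [h]; exact ENNReal.one_lt_top

/-- the functionals are invariant -/
lemma Phi_isom (hk : Ker k L) {X Y : MMSpace} (h : Isom X Y) : Phi k X = Phi k Y := by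
  obtain ⟨f, hf⟩ := h
  rw [Phi_eq hk X (X.μ.comap (Subtype.val : X.μ.support → X.carrier)) Subtype.val
    measurable_subtype_coe (map_val_comap X),
    Phi_eq hk Y (X.μ.comap (Subtype.val : X.μ.support → X.carrier)) (fun x => (f x : Y.carrier))
      (continuous_subtype_val.comp f.continuous).measurable hf]
  congr 1
  funext p
  congr 1
  exact (f.dist_eq p.1 p.2).symm

/-- the functionals on the classes -/
noncomputable def PhiC (k : ℝ → ℝ) (L : ℝ≥0) (hk : Ker k L) : MMClass → ℝ :=
  Quot.lift (Phi k) fun _ _ h => Phi_isom hk h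

lemma PhiC_mk (hk : Ker k L) (X : MMSpace) : PhiC k L hk (mk X) = Phi k X := rfl

lemma Phi_boxLe (hk : Ker k L) {X Y : MMSpace} {ε : ℝ≥0} (h : BoxLe X Y ε) :
    |Phi k X - Phi k Y| ≤ (L + 2) * ε := by
  obtain ⟨φ, ψ, I₀, ⟨hφ, hφ'⟩, ⟨hψ, hψ'⟩, hI, hI', hd⟩ := h
  rw [Phi_eq hk X leb φ hφ hφ', Phi_eq hk Y leb ψ hψ hψ', ← integral_sub
    (integrable_of hk _ hφ) (integrable_of hk _ hψ)]
  have hIc : leb I₀ᶜ ≤ ε := by
    rw [measure_compl hI (measure_ne_top _ _), measure_univ]
    exact tsub_le_iff_tsub_le.1 hI'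
  have hcompl : (leb.prod leb) ((I₀ ×ˢ I₀)ᶜ) ≤ 2 * ε := by
    have hsub : (I₀ ×ˢ I₀)ᶜ ⊆ (I₀ᶜ ×ˢ (univ : Set I)) ∪ ((univ : Set I) ×ˢ I₀ᶜ) := by
      rintro ⟨s, t⟩ h
      simp only [mem_compl_iff, mem_prod, not_and_or, mem_union, mem_univ, and_true,
        true_and] at h ⊢
      exact h
    refine (measure_mono hsub).trans ((measure_union_le _ _).trans ?_)
    rw [Measure.prod_prod, Measure.prod_prod, measure_univ, mul_one, one_mul, two_mul]
    exact add_le_add hIc hIc
  have hmeas : MeasurableSet (I₀ ×ˢ I₀) := hI.prod hI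
  have hint : Integrable (fun p : I × I => k (dist (φ p.1) (φ p.2)) - k (dist (ψ p.1) (ψ p.2)))
      (leb.prod leb) := (integrable_of hk _ hφ).sub (integrable_of hk _ hψ)
  rw [← integral_add_compl hmeas hint]
  refine (abs_add_le _ _).trans ?_
  have h1 : |∫ p in I₀ ×ˢ I₀, (k (dist (φ p.1) (φ p.2)) - k (dist (ψ p.1) (ψ p.2)))
      ∂(leb.prod leb)| ≤ L * ε := by
    have := norm_setIntegral_le_of_norm_le_const (μ := leb.prod leb)
      (s := I₀ ×ˢ I₀) (f := fun p : I × I => k (dist (φ p.1) (φ p.2)) - k (dist (ψ p.1) (ψ p.2)))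
      (C := L * ε) (measure_lt_top _ _) (by
        rintro ⟨s, t⟩ ⟨hs, ht⟩
        rw [Real.norm_eq_abs]
        have h2 := hk.lip.dist_le_mul (dist (φ s) (φ t)) (dist (ψ s) (ψ t))
        rw [Real.dist_eq, Real.dist_eq] at h2
        exact h2.trans (mul_le_mul_of_nonneg_left (hd s hs t ht) L.2))
    rw [Real.norm_eq_abs] at this
    refine this.trans ?_
    have hle : (leb.prod leb).real (I₀ ×ˢ I₀) ≤ 1 := measureReal_le_one
    have h0 : 0 ≤ (L : ℝ) * ε := mul_nonneg L.2 ε.2
    nlinarith
  have h2 : |∫ p in (I₀ ×ˢ I₀)ᶜ, (k (dist (φ p.1) (φ p.2)) - k (dist (ψ p.1) (ψ p.2)))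
      ∂(leb.prod leb)| ≤ 2 * ε := by
    have := norm_setIntegral_le_of_norm_le_const (μ := leb.prod leb)
      (s := (I₀ ×ˢ I₀)ᶜ) (f := fun p : I × I => k (dist (φ p.1) (φ p.2)) - k (dist (ψ p.1) (ψ p.2)))
      (C := 1) (measure_lt_top _ _) (by
        rintro ⟨s, t⟩ -
        rw [Real.norm_eq_abs, abs_le]
        have := hk.nonneg (dist (φ s) (φ t))
        have := hk.nonneg (dist (ψ s) (ψ t))
        have := hk.le_one (dist (φ s) (φ t))
        have := hk.le_one (dist (ψ s) (ψ t))
        constructor <;> simp only <;> linarith)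
    rw [Real.norm_eq_abs, one_mul] at this
    refine this.trans ?_
    have := ENNReal.toReal_mono (by finiteness) hcompl
    simpa [Measure.real] using this
  linarith

lemma PhiC_box (hk : Ker k L) (x y : MMClass) {r : ℝ} (hr : 0 < r)
    (h : box x y < ENNReal.ofReal (r / (L + 2))) : |PhiC k L hk x - PhiC k L hk y| < r := by
  unfold box at h
  simp only [iInf_lt_iff] at h
  obtain ⟨ε, ⟨X, Y, rfl, rfl, hXY⟩, hε⟩ := h
  rw [PhiC_mk, PhiC_mk]
  refine (Phi_boxLe hk hXY).trans_lt ?_
  have hL : (0 : ℝ) < L + 2 := by positivity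
  have h1 : (ε : ℝ) < r / (L + 2) := by
    rw [← ENNReal.ofReal_coe_nnreal] at hε
    exact (ENNReal.ofReal_lt_ofReal_iff (by positivity)).1 hε
  rw [lt_div_iff₀ hL] at h1
  linarith

lemma PhiC_cont (hk : Ker k L) : Continuous (PhiC k L hk) := by
  rw [continuous_def]
  intro U hU x hx
  obtain ⟨r, hr, hrU⟩ := Metric.isOpen_iff.1 hU _ hx
  refine ⟨ENNReal.ofReal (r / (L + 2)), ENNReal.ofReal_pos.2 (by positivity), fun y hy => ?_⟩
  refine hrU ?_
  rw [Metric.mem_ball, dist_comm, Real.dist_eq]
  exact PhiC_box hk x y hr hy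

/-! ### The two kernels -/

lemma ker_min : Ker (fun d => min |d| 1) 1 where
  lip := by
    have h1 : LipschitzWith 1 (fun d : ℝ => |d|) := lipschitzWith_one_norm
    exact h1.min_const 1
  nonneg := fun d => le_min (abs_nonneg d) zero_le_one
  le_one := fun d => min_le_right _ _

lemma ker_bump (m : ℕ) : Ker (fun d => max (1 - m * |d|) 0) m where
  lip := by
    have h1 : LipschitzWith 1 (fun d : ℝ => |d|) := lipschitzWith_one_norm
    have h2 : LipschitzWith m (fun d : ℝ => 1 - m * |d|) := by
      refine LipschitzWith.of_dist_le_mul fun x y => ?_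
      rw [Real.dist_eq, Real.dist_eq]
      have h3 : 1 - (m : ℝ) * |x| - (1 - m * |y|) = m * (|y| - |x|) := by ring
      rw [h3, abs_mul, abs_of_nonneg (Nat.cast_nonneg m), abs_sub_comm x y]
      simp only [NNReal.coe_natCast]
      exact mul_le_mul_of_nonneg_left (abs_abs_sub_abs_le _ _) (Nat.cast_nonneg m)
    exact h2.max_const 0
  nonneg := fun d => le_max_right _ _
  le_one := fun d => by
    refine max_le ?_ zero_le_one
    have := mul_nonneg (Nat.cast_nonneg (α := ℝ) m) (abs_nonneg d)
    linarith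

/-- `F X` measures the distance from the one-point space -/
noncomputable def F : MMClass → ℝ := PhiC (fun d => min |d| 1) 1 ker_min

lemma F_mk (X : MMSpace) : F (mk X) = Phi (fun d => min |d| 1) X := rfl

/-- `G m X > 0` for all `X` -/
noncomputable def G (m : ℕ) : MMClass → ℝ :=
  PhiC (fun d => max (1 - (m : ℝ) * |d|) 0) m (ker_bump m)

lemma G_mk (m : ℕ) (X : MMSpace) :
    G m (mk X) = Phi (fun d => max (1 - (m : ℝ) * |d|) 0) X := rfl

lemma G_pos (m : ℕ) (x : MMClass) : 0 < G m x := by
  induction x using Quot.ind with | _ X =>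
  show 0 < Phi (fun d => max (1 - (m : ℝ) * |d|) 0) X
  obtain ⟨z, hz⟩ := Measure.nonempty_support (IsProbabilityMeasure.ne_zero X.μ)
  set r : ℝ := 1 / (4 * (m + 1)) with hr
  have hr0 : 0 < r := by positivity
  have hB := (Measure.mem_support_iff_forall z).1 hz _ (Metric.ball_mem_nhds z hr0)
  unfold Phi
  rw [integral_pos_iff_support_of_nonneg (fun p => (ker_bump m).nonneg _)]
  · refine lt_of_lt_of_le (b := (X.μ.prod X.μ) (Metric.ball z r ×ˢ Metric.ball z r)) ?_
      (measure_mono ?_)
    · rw [Measure.prod_prod]; exact ENNReal.mul_pos hB.ne' hB.ne'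
    · rintro ⟨a, b⟩ ⟨ha, hb⟩
      rw [Function.mem_support]
      have h1 : dist a b < 2 * r := by
        have := dist_triangle_right a b z
        rw [Metric.mem_ball] at ha hb
        simp only at ha hb
        linarith
      have h2 : (m : ℝ) * |dist a b| < 1 := by
        rw [abs_of_nonneg dist_nonneg]
        have h3 : (m : ℝ) * dist a b ≤ m * (2 * r) :=
          mul_le_mul_of_nonneg_left h1.le (Nat.cast_nonneg m)
        have h4 : (m : ℝ) * (2 * r) < 1 := by
          rw [hr]
          have : (0:ℝ) ≤ m := Nat.cast_nonneg m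
          rw [show (m : ℝ) * (2 * (1 / (4 * (m + 1)))) = m / (2 * (m + 1)) by field_simp; ring,
            div_lt_one (by positivity)]
          linarith
        linarith
      have h5 : 0 < max (1 - (m : ℝ) * |dist a b|) 0 := lt_max_of_lt_left (by linarith)
      exact h5.ne'
  · have := integrable_of (ker_bump m) (X.μ) (X := X) (φ := id) measurable_id
    exact this

/-- the one-point space -/
noncomputable def pt : MMSpace where
  carrier := Unit
  μ := Measure.dirac ()

lemma F_eq_zero {x : MMClass} (h : F x ≤ 0) : x = mk pt := by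
  induction x using Quot.ind with | _ X =>
  have h' : Phi (fun d => min |d| 1) X ≤ 0 := h
  -- the support is a singleton
  have hsub : X.μ.support.Subsingleton := by
    intro z hz z' hz'
    by_contra hne
    have hd : 0 < dist z z' := dist_pos.2 hne
    set r : ℝ := dist z z' / 3 with hr
    have hr0 : 0 < r := by positivity
    have hB := (Measure.mem_support_iff_forall z).1 hz _ (Metric.ball_mem_nhds z hr0)
    have hB' := (Measure.mem_support_iff_forall z').1 hz' _ (Metric.ball_mem_nhds z' hr0)
    refine absurd h' (not_le.2 ?_)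
    unfold Phi
    rw [integral_pos_iff_support_of_nonneg (fun p => ker_min.nonneg _)]
    · refine lt_of_lt_of_le (b := (X.μ.prod X.μ) (Metric.ball z r ×ˢ Metric.ball z' r)) ?_
        (measure_mono ?_)
      · rw [Measure.prod_prod]; exact ENNReal.mul_pos hB.ne' hB'.ne'
      · rintro ⟨a, b⟩ ⟨ha, hb⟩
        rw [Function.mem_support]
        have h1 : 0 < dist a b := by
          have h2 := dist_triangle z a z'
          have h3 := dist_triangle a b z'
          rw [Metric.mem_ball] at ha hb
          simp only at ha hb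
          rw [dist_comm] at ha
          linarith
        have h5 : 0 < min |dist a b| 1 := lt_min (abs_pos.2 h1.ne') one_pos
        exact h5.ne'
    · exact integrable_of ker_min (X.μ) (X := X) (φ := id) measurable_id
  obtain ⟨z, hz⟩ := Measure.nonempty_support (IsProbabilityMeasure.ne_zero X.μ)
  have hz2 : () ∈ pt.μ.support := by
    obtain ⟨z', hz'⟩ := Measure.nonempty_support (IsProbabilityMeasure.ne_zero pt.μ)
    exact hz'
  refine Quot.sound ⟨⟨⟨fun _ => ⟨(), hz2⟩, fun _ => ⟨z, hz⟩, fun x => Subtype.ext (hsub hz x.2),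
    fun x => Subtype.ext rfl⟩, fun x y => ?_⟩, ?_⟩
  · have : x = y := Subtype.ext (hsub x.2 y.2)
    rw [this]; simp
  · have hc : (fun x : X.μ.support => (((⟨⟨fun _ => ⟨(), hz2⟩, fun _ => ⟨z, hz⟩,
        fun x => Subtype.ext (hsub hz x.2), fun x => Subtype.ext rfl⟩, fun x y => by
          have : x = y := Subtype.ext (hsub x.2 y.2)
          rw [this]; simp⟩ : X.μ.support ≃ᵢ pt.μ.support) x : pt.μ.support) : pt.carrier)) =
        fun _ => () := rfl
    have huniv : (X.μ.comap (Subtype.val : X.μ.support → X.carrier)) univ = 1 := by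
      have h := congrArg (fun m => m univ) (map_val_comap X)
      simpa [Measure.map_apply measurable_subtype_coe MeasurableSet.univ] using h
    show Measure.map (fun _ => ()) _ = Measure.dirac ()
    rw [Measure.map_const, huniv, one_smul]

/-! ### The spaces with `n` points at distance `1 / m` -/

/-- the index -/
noncomputable def idx (n : ℕ) (hn : 0 < n) (s : I) : Fin n :=
  ⟨⌊(n : ℝ) * s⌋₊, by
    have h1 : (0:ℝ) ≤ s := s.2.1
    have h2 : (s:ℝ) < 1 := s.2.2
    have hn' : (0:ℝ) < n := Nat.cast_pos.2 hn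
    rw [Nat.floor_lt (by positivity)]
    nlinarith⟩

lemma measurable_idx (n : ℕ) (hn : 0 < n) : Measurable (idx n hn) := by
  have h1 : Measurable (fun s : I => ⌊(n : ℝ) * s⌋₊) :=
    Nat.measurable_floor.comp (measurable_subtype_coe.const_mul _)
  refine measurable_to_countable' fun j => ?_
  have : idx n hn ⁻¹' {j} = (fun s : I => ⌊(n : ℝ) * s⌋₊) ⁻¹' {(j : ℕ)} := by
    ext s
    simp only [mem_preimage, mem_singleton_iff, idx, Fin.ext_iff]
  rw [this]
  exact h1 (measurableSet_singleton _)

lemma vol_idx (n : ℕ) (hn : 0 < n) (j : Fin n) :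
    leb {t | idx n hn t = j} ≤ ENNReal.ofReal (1 / n) := by
  have hn' : (0:ℝ) < n := Nat.cast_pos.2 hn
  have hm : MeasurableSet {t | idx n hn t = j} := measurable_idx n hn (measurableSet_singleton j)
  have h1 : leb {t | idx n hn t = j} =
      volume ((↑) '' {t : I | idx n hn t = j} : Set ℝ) := by
    exact comap_subtype_coe_apply measurableSet_Ico volume _
  rw [h1]
  refine (measure_mono (t := Icc ((j : ℝ) / n) (((j : ℝ) + 1) / n)) ?_).trans ?_
  · rintro _ ⟨t, ht, rfl⟩
    have ht' : ⌊(n : ℝ) * t⌋₊ = (j : ℕ) := by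
      have := congrArg Fin.val (show idx n hn t = j from ht)
      exact this
    have h0 : (0:ℝ) ≤ n * t := mul_nonneg hn'.le t.2.1
    have h2 := Nat.floor_le h0
    have h3 := Nat.lt_floor_add_one ((n : ℝ) * t)
    rw [ht'] at h2 h3
    constructor
    · rw [div_le_iff₀ hn']; linarith
    · rw [le_div_iff₀ hn']; linarith
  · rw [Real.volume_Icc]
    refine ENNReal.ofReal_le_ofReal (le_of_eq ?_)
    field_simp
    ring

/-- the points -/
noncomputable def pts (m n : ℕ) (hn : 0 < n) (s : I) : Fin n → ℝ :=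
  Pi.single (idx n hn s) (1 / (m : ℝ))

lemma measurable_pts (m n : ℕ) (hn : 0 < n) : Measurable (pts m n hn) :=
  (measurable_from_top (f := fun j : Fin n => (Pi.single j (1 / (m : ℝ)) : Fin n → ℝ))).comp
    (measurable_idx n hn)

lemma dist_pts (m n : ℕ) (hn : 0 < n) (s t : I) :
    dist (pts m n hn s) (pts m n hn t) = if idx n hn s = idx n hn t then 0 else 1 / (m : ℝ) := by
  unfold pts
  split_ifs with h
  · rw [h, dist_self]
  · refine le_antisymm ?_ ?_
    · refine (dist_pi_le_iff (by positivity)).2 fun j => ?_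
      rw [Real.dist_eq]
      by_cases h1 : j = idx n hn s
      · subst h1
        rw [Pi.single_eq_same, Pi.single_eq_of_ne h, sub_zero, abs_of_nonneg (by positivity)]
      · rw [Pi.single_eq_of_ne h1, zero_sub, abs_neg]
        by_cases h2 : j = idx n hn t
        · subst h2
          rw [Pi.single_eq_same, abs_of_nonneg (by positivity)]
        · rw [Pi.single_eq_of_ne h2, abs_zero]; positivity
    · have := dist_le_pi_dist (Pi.single (idx n hn s) (1 / (m : ℝ)) : Fin n → ℝ)
        (Pi.single (idx n hn t) (1 / (m : ℝ))) (idx n hn s)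
      rw [Pi.single_eq_same, Pi.single_eq_of_ne h, Real.dist_eq, sub_zero,
        abs_of_nonneg (by positivity)] at this
      exact this

/-- the mm-space with `n` points of mass `1 / n` at distance `1 / m` -/
noncomputable def Y (m n : ℕ) (hn : 0 < n) : MMSpace where
  carrier := Fin n → ℝ
  μ := Measure.map (pts m n hn) leb
  prob := Measure.isProbabilityMeasure_map (measurable_pts m n hn).aemeasurable

lemma box_pt_Y (m n : ℕ) (hn : 0 < n) : box (mk pt) (mk (Y m n hn)) ≤ ((1 / m : ℝ≥0) : ℝ≥0∞) := by
  unfold box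
  refine iInf₂_le (1 / m : ℝ≥0) ⟨pt, Y m n hn, rfl, rfl, fun _ => (), pts m n hn, univ,
    ⟨measurable_const, ?_⟩, ⟨measurable_pts m n hn, rfl⟩, MeasurableSet.univ, ?_, ?_⟩
  · show Measure.map (fun _ : I => ()) leb = Measure.dirac ()
    rw [Measure.map_const, vol_I, one_smul]
  · rw [vol_I]; exact tsub_le_self
  · intro s _ t _
    have h1 : dist (pts m n hn s) (pts m n hn t) ≤ 1 / m := by
      rw [dist_pts]; split_ifs
      · positivity
      · exact le_rfl
    have h2 : 0 ≤ dist (pts m n hn s) (pts m n hn t) := dist_nonneg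
    show |dist () () - dist (pts m n hn s) (pts m n hn t)| ≤ _
    rw [dist_self, zero_sub, abs_neg, abs_of_nonneg h2]
    simpa using h1

lemma F_Y (m n : ℕ) (hn : 0 < n) : F (mk (Y m n hn)) ≤ 1 / m := by
  rw [F_mk, Phi_eq ker_min (Y m n hn) leb (pts m n hn) (measurable_pts m n hn) rfl]
  have h1 : ∀ p : I × I, (fun d => min |d| 1) (dist (pts m n hn p.1) (pts m n hn p.2)) ≤
      1 / (m : ℝ) := by
    intro p
    refine (min_le_left _ _).trans ?_
    rw [abs_of_nonneg dist_nonneg, dist_pts]
    split_ifs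
    · positivity
    · exact le_rfl
  have := integral_mono (μ := leb.prod leb)
    (integrable_of ker_min leb (X := Y m n hn) (measurable_pts m n hn))
    (integrable_const (1 / (m : ℝ))) h1
  refine this.trans (le_of_eq ?_)
  simp

lemma G_Y (m n : ℕ) (hm : 0 < m) (hn : 0 < n) : G m (mk (Y m n hn)) ≤ 1 / n := by
  have hm' : (0:ℝ) < m := Nat.cast_pos.2 hm
  rw [G_mk, Phi_eq (ker_bump m) (Y m n hn) leb (pts m n hn) (measurable_pts m n hn) rfl,
    integral_prod _ (integrable_of (ker_bump m) leb (X := Y m n hn) (measurable_pts m n hn))]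
  have h1 : ∀ s : I, ∫ t : I, (fun d => max (1 - (m : ℝ) * |d|) 0)
      (dist (pts m n hn s) (pts m n hn t)) ∂leb ≤ 1 / n := by
    intro s
    have h2 : ∀ t : I, (fun d => max (1 - (m : ℝ) * |d|) 0)
        (dist (pts m n hn s) (pts m n hn t)) =
        indicator {t | idx n hn t = idx n hn s} (fun _ => (1:ℝ)) t := by
      intro t
      simp only [dist_pts, indicator, mem_ofPred_eq]
      by_cases h : idx n hn s = idx n hn t
      · simp [h]
      · rw [if_neg h, if_neg (Ne.symm h)]
        rw [abs_of_nonneg (by positivity), mul_one_div_cancel hm'.ne', sub_self, max_self]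
    rw [integral_congr_ae (Eventually.of_forall h2),
      integral_indicator (show MeasurableSet {t | idx n hn t = idx n hn s} from
        measurable_idx n hn (measurableSet_singleton _))]
    simp only [integral_const, smul_eq_mul, mul_one, measureReal_restrict_apply_univ]
    have := ENNReal.toReal_mono ENNReal.ofReal_ne_top (vol_idx n hn (idx n hn s))
    rw [ENNReal.toReal_ofReal (by positivity)] at this
    exact this
  have := integral_mono (μ := leb)
    (integrable_of (ker_bump m) leb (X := Y m n hn) (measurable_pts m n hn)).integral_prod_left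
    (integrable_const (1 / (n : ℝ))) h1
  refine this.trans (le_of_eq ?_)
  simp

/-! ### The closed sets -/

/-- the closed sets -/
noncomputable def A (m n : ℕ) : Hyper :=
  ⟨{x | F x ≤ 1 / (m + 1)} ∩ {x | G (m + 1) x ≤ 1 / (n + 1)},
    (isClosed_le (PhiC_cont ker_min) continuous_const).inter
      (isClosed_le (PhiC_cont (ker_bump (m + 1))) continuous_const)⟩

/-- the set consisting of the one-point space -/
noncomputable def P : Hyper :=
  ⟨{x | F x ≤ 0}, isClosed_le (PhiC_cont ker_min) continuous_const⟩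

lemma coe_P : (P : Set MMClass) = {mk pt} := by
  ext x
  constructor
  · intro h; exact F_eq_zero h
  · rintro rfl
    show Phi (fun d => min |d| 1) pt ≤ 0
    refine le_of_eq (integral_eq_zero_of_ae (Eventually.of_forall fun p => ?_))
    have : p.1 = p.2 := rfl
    simp [this]

lemma mem_A (m n : ℕ) : mk (Y (m + 1) (n + 1) n.succ_pos) ∈ A m n := by
  constructor
  · have := F_Y (m + 1) (n + 1) n.succ_pos
    push_cast at this
    exact this
  · have := G_Y (m + 1) (n + 1) m.succ_pos n.succ_pos
    push_cast at this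
    exact this

lemma tendsto_inv : Tendsto (fun n : ℕ => 1 / ((n : ℝ) + 1)) atTop (𝓝 0) :=
  tendsto_one_div_add_atTop_nhds_zero_nat

theorem not_t2 : ¬ @T2Space Hyper tauK.{w} := by
  intro hT
  have hall : AllConverge.{w} tauK.{w} := allConverge_tauK
  have hne : (⊥ : Hyper) ≠ P := by
    intro h
    have h1 : (mk pt) ∈ (P : Set MMClass) := by rw [coe_P]; rfl
    rw [← h] at h1
    exact h1
  obtain ⟨U, V, hU, hV, hbU, hpV, hUV⟩ := @t2_separation Hyper tauK.{w} hT _ _ hne
  -- the sequences `A m n` converge to the empty set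
  have e1 : ∀ m : ℕ, ∃ n : ℕ, A m n ∈ U := by
    intro m
    have := hall (ULift.{w} ℕ) (fun i => A m i.down) ⊥ (by
      intro x hx
      exfalso
      have hG := G_pos (m + 1) x
      have h1 : {y | G (m + 1) x / 2 < G (m + 1) y} ∈ 𝓝 x :=
        (isOpen_lt continuous_const (PhiC_cont (ker_bump (m + 1)))).mem_nhds (half_lt_self hG)
      obtain ⟨N, hN⟩ := (tendsto_inv.eventually (gt_mem_nhds (half_pos hG))).exists_forall_of_atTop
      obtain ⟨j, hj, y, hy, hy'⟩ := hx _ h1 ⟨N⟩
      have h2 : G (m + 1) y ≤ 1 / ((j.down : ℝ) + 1) := hy.2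
      have h3 := hN j.down hj
      have h4 : G (m + 1) x / 2 < G (m + 1) y := hy'
      linarith) (fun x hx => absurd hx (by simp))
    have h2 := this ((@mem_nhds_iff Hyper tauK.{w} _ _).2 ⟨U, subset_rfl, hU, hbU⟩)
    obtain ⟨i, hi⟩ := (mem_atTop_sets.1 h2)
    exact ⟨i.down, hi i le_rfl⟩
  choose n hn using e1
  have := hall (ULift.{w} ℕ) (fun i => A i.down (n i.down)) P (by
    intro x hx
    show F x ≤ 0
    by_contra hF
    push Not at hF
    have h1 : {y | F x / 2 < F y} ∈ 𝓝 x :=
      (isOpen_lt continuous_const (PhiC_cont ker_min)).mem_nhds (half_lt_self hF)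
    obtain ⟨N, hN⟩ := (tendsto_inv.eventually (gt_mem_nhds (half_pos hF))).exists_forall_of_atTop
    obtain ⟨j, hj, y, hy, hy'⟩ := hx _ h1 ⟨N⟩
    have h2 : F y ≤ 1 / ((j.down : ℝ) + 1) := hy.1
    have h3 := hN j.down hj
    have h4 : F x / 2 < F y := hy'
    linarith) (by
    rw [coe_P]
    rintro _ rfl W hW
    obtain ⟨W', hWW, hW', hpW⟩ := mem_nhds_iff.1 hW
    obtain ⟨ε, hε, hball⟩ := hW' _ hpW
    obtain ⟨N, hN⟩ := ENNReal.exists_inv_nat_lt hε.ne'
    refine ⟨⟨N⟩, fun j hj => ⟨_, mem_A j.down (n j.down), hWW (hball _ ?_)⟩⟩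
    refine (box_pt_Y _ _ _).trans_lt (lt_of_le_of_lt ?_ hN)
    have hj' : N ≤ j.down := hj
    rw [one_div, ENNReal.coe_inv (by positivity)]
    exact ENNReal.inv_le_inv.2 (by
      norm_cast
      omega))
  have h2 := this ((@mem_nhds_iff Hyper tauK.{w} _ _).2 ⟨V, subset_rfl, hV, hpV⟩)
  obtain ⟨i, hi⟩ := (mem_atTop_sets.1 h2)
  exact Set.disjoint_left.1 hUV (hn i.down) (hi i le_rfl)

/-- The space of the closed sets of classes of mm-spaces (for the box distance) with the
topologization of the Kuratowski-Painlevé convergence is not Hausdorff, and not metrizable. -/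
theorem result : ¬ @T2Space Hyper tauK.{w} ∧ ¬ @TopologicalSpace.MetrizableSpace Hyper tauK.{w} := by
  refine ⟨not_t2, fun h => not_t2 ?_⟩
  exact @TopologicalSpace.t2Space_of_metrizableSpace Hyper tauK.{w} h

end Pool.Agent.Results.MP_3b4475_gt.NotHausdorff
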